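import Pool.Agent.N912.PY.Stm

/-!
# Project PY (helper912), PY7: linear forms over the points of a polygon, from PY6 (helper644)
-/

set_option autoImplicit false

namespace Pool.Agent.N644.PY

open Finset Filter Pool.Agent.N912.PY

theorem filt_eq (N : ℕ) (Q : ℕ → Prop) [DecidablePred Q] (hQ : ∀ n m, n ≤ m → Q m → Q n) :
    (Icc 1 N).filter Q = Icc 1 ((Icc 1 N).filter Q).card := by
  induction N with
  | zero => simp
  | succ N ih =>
    by_cases h : Q (N + 1)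
    · have h1 : (Icc 1 (N + 1)).filter Q = Icc 1 (N + 1) := by
        refine Finset.filter_true_of_mem fun n hn => hQ n (N + 1) (mem_Icc.1 hn).2 h
      rw [h1]
      simp
    · have h1 : (Icc 1 (N + 1)).filter Q = (Icc 1 N).filter Q := by
        ext n
        simp only [mem_filter, mem_Icc]
        constructor
        · rintro ⟨⟨h1, h2⟩, h3⟩
          refine ⟨⟨h1, ?_⟩, h3⟩
          rcases Nat.lt_or_ge n (N + 1) with h4 | h4
          · omega
          · have : n = N + 1 := le_antisymm h2 h4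
            subst this
            exact absurd h3 h
        · rintro ⟨⟨h1, h2⟩, h3⟩
          exact ⟨⟨h1, by omega⟩, h3⟩
      rw [h1]
      exact ih

theorem card_lip (N L : ℕ) (Q Q' : ℕ → Prop) [DecidablePred Q] [DecidablePred Q']
    (hQ : ∀ n m, n ≤ m → Q m → Q n) (hQ' : ∀ n m, n ≤ m → Q' m → Q' n)
    (h : ∀ n, Q (n + L) → Q' n) :
    ((Icc 1 N).filter Q).card ≤ ((Icc 1 N).filter Q').card + L := by
  set U := ((Icc 1 N).filter Q).card with hU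
  set U' := ((Icc 1 N).filter Q').card with hU'
  rcases Nat.lt_or_ge L U with h1 | h1
  · have h2 : U ∈ (Icc 1 N).filter Q := by
      rw [filt_eq N Q hQ, mem_Icc]
      exact ⟨by omega, le_rfl⟩
    rw [mem_filter, mem_Icc] at h2
    have h3 : Q' (U - L) := h _ (by rw [Nat.sub_add_cancel h1.le]; exact h2.2)
    have h4 : U - L ∈ (Icc 1 N).filter Q' := by
      rw [mem_filter, mem_Icc]
      exact ⟨⟨by omega, by omega⟩, h3⟩
    rw [filt_eq N Q' hQ', mem_Icc] at h4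
    have := h4.2
    omega
  · omega

theorem norm_prod_le {k : ℕ} (f : Fin k → ℕ → ℂ) (hf : ∀ i, IsMult (f i)) (g : Fin k → ℕ) :
    ‖∏ i, f i (g i)‖ ≤ 1 := by
  rw [norm_prod]
  exact Finset.prod_le_one (fun i _ => norm_nonneg _) (fun i _ => (hf i).1 _)

open scoped Classical in
/-- one quadrant -/
theorem quad (h : S_LF1) (k : ℕ) (α β : Fin k → ℤ) (hα : ∀ i, α i ≠ 0)
    (hαβ : ∀ i j, i ≠ j → α i * β j ≠ α j * β i) (f : Fin k → ℕ → ℂ) (hf : ∀ i, IsMult (f i))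
    (hF : ∃ i, FNP (f i)) {ι : Type} (a b c : ι → ℤ) (Λ : ℕ) (hb : ∀ m, |b m| ≤ Λ) (ε : ℝ)
    (hε : 0 < ε) : ∃ K : ℕ, ∀ x : ℕ, K ≤ x →
    ∑ d ∈ Icc 1 (Λ * x), ‖∑ n ∈ Icc 1 (Λ * x),
      (if (∀ m, a m * (n : ℤ) + b m * (d : ℤ) ≤ c m * x) then
        ∏ i, f i (α i * (n : ℤ) + β i * (d : ℤ)).natAbs else 0)‖ ≤ ε * (x : ℝ) ^ 2 := by
  obtain ⟨K, hK⟩ := h k α β hα hαβ f hf hF Λ (ε / 2) (by linarith)
  refine ⟨K, fun x hx => ?_⟩
  -- the two families of conditions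
  let P : ℕ → ℕ → Prop := fun d n => ∀ m, 0 < a m → a m * (n : ℤ) + b m * (d : ℤ) ≤ c m * x
  let R : ℕ → ℕ → Prop := fun d n => ∀ m, a m < 0 → a m * (n : ℤ) + b m * (d : ℤ) ≤ c m * x
  let Q : ℕ → ℕ → Prop := fun d n => P d n ∧ ¬ R d n
  have hP : ∀ d n n', n ≤ n' → P d n' → P d n := by
    intro d n n' hn h1 m hm
    have h2 := h1 m hm
    have h3 : (n : ℤ) ≤ n' := by exact_mod_cast hn
    nlinarith [mul_le_mul_of_nonneg_left h3 hm.le]
  have hR : ∀ d n n', n ≤ n' → R d n → R d n' := by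
    intro d n n' hn h1 m hm
    have h2 := h1 m hm
    have h3 : (n : ℤ) ≤ n' := by exact_mod_cast hn
    nlinarith [mul_le_mul_of_nonpos_left h3 hm.le]
  have hQ : ∀ d n n', n ≤ n' → Q d n' → Q d n := fun d n n' hn h1 =>
    ⟨hP d n n' hn h1.1, fun h2 => h1.2 (hR d n n' hn h2)⟩
  have hΛ0 : (0 : ℤ) ≤ Λ := Int.natCast_nonneg Λ
  have hPup : ∀ d n, P d (n + Λ) → P (d + 1) n := by
    intro d n h1 m hm
    have h2 := h1 m hm
    have h3 := (abs_le.1 (hb m)).2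
    push_cast at h2 ⊢
    have h4 : (Λ : ℤ) ≤ a m * Λ := by nlinarith
    nlinarith
  have hPdn : ∀ d n, P (d + 1) (n + Λ) → P d n := by
    intro d n h1 m hm
    have h2 := h1 m hm
    have h3 := (abs_le.1 (hb m)).1
    push_cast at h2 ⊢
    have h4 : (Λ : ℤ) ≤ a m * Λ := by nlinarith
    nlinarith
  have hRup : ∀ d n, R (d + 1) n → R d (n + Λ) := by
    intro d n h1 m hm
    have h2 := h1 m hm
    have h3 := (abs_le.1 (hb m)).1
    push_cast at h2 ⊢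
    have h4 : a m * Λ ≤ -(Λ : ℤ) := by nlinarith
    nlinarith
  have hRdn : ∀ d n, R d n → R (d + 1) (n + Λ) := by
    intro d n h1 m hm
    have h2 := h1 m hm
    have h3 := (abs_le.1 (hb m)).2
    push_cast at h2 ⊢
    have h4 : a m * Λ ≤ -(Λ : ℤ) := by nlinarith
    nlinarith
  have hQup : ∀ d n, Q d (n + Λ) → Q (d + 1) n := fun d n h1 =>
    ⟨hPup d n h1.1, fun h2 => h1.2 (hRup d n h2)⟩
  have hQdn : ∀ d n, Q (d + 1) (n + Λ) → Q d n := fun d n h1 =>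
    ⟨hPdn d n h1.1, fun h2 => h1.2 (hRdn d n h2)⟩
  have hcard : ∀ (D : ℕ → Prop) [DecidablePred D], ((Icc 1 (Λ * x)).filter D).card ≤ Λ * x := by
    intro D _
    refine (card_filter_le _ _).trans ?_
    simp
  have e1 := hK x hx (fun d => ((Icc 1 (Λ * x)).filter (P d)).card) (fun d => hcard _)
    (fun d => ⟨card_lip _ _ _ _ (hP _) (hP _) (hPdn d), card_lip _ _ _ _ (hP _) (hP _) (hPup d)⟩)
  have e2 := hK x hx (fun d => ((Icc 1 (Λ * x)).filter (Q d)).card) (fun d => hcard _)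
    (fun d => ⟨card_lip _ _ _ _ (hQ _) (hQ _) (hQdn d), card_lip _ _ _ _ (hQ _) (hQ _) (hQup d)⟩)
  simp only [← filt_eq _ _ (hP _), ← filt_eq _ _ (hQ _)] at e1 e2
  have e3 : ∀ d ∈ Icc 1 (Λ * x), ‖∑ n ∈ Icc 1 (Λ * x),
      (if (∀ m, a m * (n : ℤ) + b m * (d : ℤ) ≤ c m * x) then
        ∏ i, f i (α i * (n : ℤ) + β i * (d : ℤ)).natAbs else 0)‖ ≤
      ‖∑ n ∈ (Icc 1 (Λ * x)).filter (P d), ∏ i, f i (α i * (n : ℤ) + β i * (d : ℤ)).natAbs‖ +
      ‖∑ n ∈ (Icc 1 (Λ * x)).filter (Q d), ∏ i, f i (α i * (n : ℤ) + β i * (d : ℤ)).natAbs‖ := by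
    intro d _
    by_cases h0 : ∀ m, a m = 0 → b m * (d : ℤ) ≤ c m * x
    · have e4 : ∑ n ∈ Icc 1 (Λ * x),
          (if (∀ m, a m * (n : ℤ) + b m * (d : ℤ) ≤ c m * x) then
            ∏ i, f i (α i * (n : ℤ) + β i * (d : ℤ)).natAbs else 0) =
          ∑ n ∈ (Icc 1 (Λ * x)).filter (P d), ∏ i, f i (α i * (n : ℤ) + β i * (d : ℤ)).natAbs -
          ∑ n ∈ (Icc 1 (Λ * x)).filter (Q d),
            ∏ i, f i (α i * (n : ℤ) + β i * (d : ℤ)).natAbs := by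
        rw [Finset.sum_filter, Finset.sum_filter, ← Finset.sum_sub_distrib]
        refine Finset.sum_congr rfl fun n _ => ?_
        have hiff : (∀ m, a m * (n : ℤ) + b m * (d : ℤ) ≤ c m * x) ↔ P d n ∧ R d n := by
          constructor
          · intro h1
            exact ⟨fun m _ => h1 m, fun m _ => h1 m⟩
          · rintro ⟨h1, h2⟩ m
            rcases lt_trichotomy (a m) 0 with h3 | h3 | h3
            · exact h2 m h3
            · rw [h3, zero_mul, zero_add]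
              exact h0 m h3
            · exact h1 m h3
        by_cases hp : P d n
        · by_cases hr : R d n
          · rw [if_pos (hiff.2 ⟨hp, hr⟩), if_pos hp, if_neg (fun h1 : Q d n => h1.2 hr), sub_zero]
          · rw [if_neg (fun h1 => hr (hiff.1 h1).2), if_pos hp, if_pos (⟨hp, hr⟩ : Q d n),
              sub_self]
        · rw [if_neg (fun h1 => hp (hiff.1 h1).1), if_neg hp, if_neg (fun h1 : Q d n => hp h1.1),
            sub_zero]
      rw [e4]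
      exact norm_sub_le _ _
    · have e4 : ∑ n ∈ Icc 1 (Λ * x),
          (if (∀ m, a m * (n : ℤ) + b m * (d : ℤ) ≤ c m * x) then
            ∏ i, f i (α i * (n : ℤ) + β i * (d : ℤ)).natAbs else 0) = 0 := by
        refine Finset.sum_eq_zero fun n _ => if_neg fun h1 => h0 fun m hm => ?_
        have h2 := h1 m
        rw [hm, zero_mul, zero_add] at h2
        exact h2
      rw [e4, norm_zero]
      positivity
  calc _ ≤ ∑ d ∈ Icc 1 (Λ * x), (‖∑ n ∈ (Icc 1 (Λ * x)).filter (P d),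
        ∏ i, f i (α i * (n : ℤ) + β i * (d : ℤ)).natAbs‖ +
      ‖∑ n ∈ (Icc 1 (Λ * x)).filter (Q d),
        ∏ i, f i (α i * (n : ℤ) + β i * (d : ℤ)).natAbs‖) := Finset.sum_le_sum e3
    _ ≤ ε / 2 * (x : ℝ) ^ 2 + ε / 2 * (x : ℝ) ^ 2 := by
        rw [Finset.sum_add_distrib]
        exact add_le_add e1 e2
    _ = _ := by ring

theorem sum_sym (M : ℕ) (φ : ℤ → ℂ) : ∑ s ∈ Icc (-(M : ℤ)) (M : ℤ), φ s =
    φ 0 + ∑ n ∈ Icc 1 M, φ (n : ℤ) + ∑ n ∈ Icc 1 M, φ (-(n : ℤ)) := by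
  induction M with
  | zero => simp
  | succ M ih =>
    have h1 : Icc (-((M + 1 : ℕ) : ℤ)) ((M + 1 : ℕ) : ℤ) =
        insert (-((M + 1 : ℕ) : ℤ)) (insert ((M + 1 : ℕ) : ℤ) (Icc (-(M : ℤ)) (M : ℤ))) := by
      ext s
      simp only [mem_insert, mem_Icc]
      push_cast
      omega
    have h2 : -((M + 1 : ℕ) : ℤ) ∉ insert ((M + 1 : ℕ) : ℤ) (Icc (-(M : ℤ)) (M : ℤ)) := by
      simp only [mem_insert, mem_Icc]
      push_cast
      omega
    have h3 : ((M + 1 : ℕ) : ℤ) ∉ Icc (-(M : ℤ)) (M : ℤ) := by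
      simp only [mem_Icc]
      push_cast
      omega
    rw [h1, Finset.sum_insert h2, Finset.sum_insert h3, ih,
      Finset.sum_Icc_succ_top (by omega : 1 ≤ M + 1),
      Finset.sum_Icc_succ_top (by omega : 1 ≤ M + 1)]
    ring

theorem exists_shift (k : ℕ) (α β : Fin k → ℤ) (h : ∀ i, α i ≠ 0 ∨ β i ≠ 0) :
    ∃ c : ℤ, ∀ i, α i + c * β i ≠ 0 := by
  have hfin : (⋃ i : Fin k, {c : ℤ | α i + c * β i = 0}).Finite := by
    refine Set.finite_iUnion fun i => Set.Subsingleton.finite ?_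
    intro c hc c' hc'
    have h1 : α i + c * β i = 0 := hc
    have h2 : α i + c' * β i = 0 := hc'
    have h3 : (c - c') * β i = 0 := by linear_combination h1 - h2
    rcases mul_eq_zero.1 h3 with h4 | h4
    · linarith
    · exfalso
      rw [h4, mul_zero, add_zero] at h1
      rcases h i with h5 | h5
      · exact h5 h1
      · exact h5 h4
  obtain ⟨c, hc⟩ := hfin.infinite_compl.nonempty
  refine ⟨c, fun i hi => hc ?_⟩
  exact Set.mem_iUnion.2 ⟨i, hi⟩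

open scoped Classical in
theorem lf2 (h : S_LF1) : S_LF2 := by
  intro k α β hαβ0 hαβ f hf hF J A B C Λ ε hε
  obtain ⟨c, hc⟩ := exists_shift k α β hαβ0
  -- all conditions in the variables `s`, `t`
  let ι : Type := Fin J ⊕ Fin 4
  let a : ι → ℤ := Sum.elim (fun j => A j + c * B j) ![1, -1, c, -c]
  let b : ι → ℤ := Sum.elim B ![0, 0, 1, -1]
  let e : ι → ℤ := Sum.elim C ![Λ, Λ, Λ, Λ]
  set L : ℕ := Λ * (1 + c.natAbs) + ∑ j, (B j).natAbs + 1 with hL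
  have hL1 : 1 ≤ L := by omega
  have hb : ∀ m, |b m| ≤ (L : ℤ) := by
    rintro (j | j)
    · show |B j| ≤ (L : ℤ)
      have h1 : (B j).natAbs ≤ ∑ j, (B j).natAbs :=
        Finset.single_le_sum (f := fun j => (B j).natAbs) (fun _ _ => Nat.zero_le _)
          (Finset.mem_univ j)
      have h2 : (B j).natAbs ≤ L := by omega
      rw [Int.abs_eq_natAbs]
      exact_mod_cast h2
    · have h2 : (1 : ℤ) ≤ L := by exact_mod_cast hL1
      fin_cases j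
      · show |(0 : ℤ)| ≤ (L : ℤ)
        rw [abs_zero]
        linarith
      · show |(0 : ℤ)| ≤ (L : ℤ)
        rw [abs_zero]
        linarith
      · show |(1 : ℤ)| ≤ (L : ℤ)
        rw [abs_one]
        exact h2
      · show |(-1 : ℤ)| ≤ (L : ℤ)
        rw [abs_neg, abs_one]
        exact h2
  -- the conditions
  have hcond : ∀ (s t : ℤ) (x : ℕ), (∀ m, a m * s + b m * t ≤ e m * x) ↔
      ((s, t + c * s) ∈ bx Λ x ∧ ∀ j, A j * s + B j * (t + c * s) ≤ C j * x) := by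
    intro s t x
    constructor
    · intro h1
      have g0 : 1 * s + 0 * t ≤ (Λ : ℤ) * x := h1 (Sum.inr 0)
      have g1 : -1 * s + 0 * t ≤ (Λ : ℤ) * x := h1 (Sum.inr 1)
      have g2 : c * s + 1 * t ≤ (Λ : ℤ) * x := h1 (Sum.inr 2)
      have g3 : -c * s + -1 * t ≤ (Λ : ℤ) * x := h1 (Sum.inr 3)
      refine ⟨?_, fun j => ?_⟩
      · unfold bx
        simp only [mem_product, mem_Icc]
        push_cast
        refine ⟨⟨by linarith, by linarith⟩, ⟨by linarith, by linarith⟩⟩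
      · have g4 : (A j + c * B j) * s + B j * t ≤ C j * x := h1 (Sum.inl j)
        linarith
    · rintro ⟨h1, h2⟩
      unfold bx at h1
      simp only [mem_product, mem_Icc] at h1
      push_cast at h1
      obtain ⟨⟨h3, h4⟩, ⟨h5, h6⟩⟩ := h1
      rintro (j | j)
      · show (A j + c * B j) * s + B j * t ≤ C j * x
        have := h2 j
        linarith
      · fin_cases j
        · show 1 * s + 0 * t ≤ (Λ : ℤ) * x
          linarith
        · show -1 * s + 0 * t ≤ (Λ : ℤ) * x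
          linarith
        · show c * s + 1 * t ≤ (Λ : ℤ) * x
          linarith
        · show -c * s + -1 * t ≤ (Λ : ℤ) * x
          linarith
  -- the four quadrants
  have hq : ∀ σ τ : ℤ, (σ = 1 ∨ σ = -1) → (τ = 1 ∨ τ = -1) → ∃ K : ℕ, ∀ x : ℕ, K ≤ x →
      ∑ d ∈ Icc 1 (L * x), ‖∑ n ∈ Icc 1 (L * x),
        (if (∀ m, (σ * a m) * (n : ℤ) + (τ * b m) * (d : ℤ) ≤ e m * x) then
          ∏ i, f i ((σ * (α i + c * β i)) * (n : ℤ) + (τ * β i) * (d : ℤ)).natAbs else 0)‖ ≤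
        ε / 8 * (x : ℝ) ^ 2 := by
    intro σ τ hσ hτ
    have hσ0 : σ ≠ 0 := by rcases hσ with rfl | rfl <;> norm_num
    have hτ0 : τ ≠ 0 := by rcases hτ with rfl | rfl <;> norm_num
    have hε8 : 0 < ε / 8 := by linarith
    have w1 : ∀ i j, i ≠ j → σ * (α i + c * β i) * (τ * β j) ≠ σ * (α j + c * β j) * (τ * β i) := by
      intro i j hij h1
      apply hαβ i j hij
      have h2 : (σ * τ) * (α i * β j - α j * β i) = 0 := by linear_combination h1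
      rcases mul_eq_zero.1 h2 with h3 | h3
      · exact absurd h3 (mul_ne_zero hσ0 hτ0)
      · linarith
    have w2 : ∀ m, |τ * b m| ≤ (L : ℤ) := by
      intro m
      rcases hτ with rfl | rfl
      · show |1 * b m| ≤ (L : ℤ)
        rw [one_mul]
        exact hb m
      · show |-1 * b m| ≤ (L : ℤ)
        rw [neg_one_mul, abs_neg]
        exact hb m
    obtain ⟨K, hK⟩ := quad h k (fun i => σ * (α i + c * β i)) (fun i => τ * β i)
      (fun i => mul_ne_zero hσ0 (hc i)) w1 f hf hF (fun m => σ * a m) (fun m => τ * b m) e L w2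
      (ε / 8) hε8
    refine ⟨K, fun x hx => le_trans (le_of_eq ?_) (hK x hx)⟩
    refine Finset.sum_congr rfl fun d _ => ?_
    congr 1
    refine Finset.sum_congr rfl fun n _ => ?_
    congr
  obtain ⟨K1, hK1⟩ := hq 1 1 (Or.inl rfl) (Or.inl rfl)
  obtain ⟨K2, hK2⟩ := hq (-1) 1 (Or.inr rfl) (Or.inl rfl)
  obtain ⟨K3, hK3⟩ := hq 1 (-1) (Or.inl rfl) (Or.inr rfl)
  obtain ⟨K4, hK4⟩ := hq (-1) (-1) (Or.inr rfl) (Or.inr rfl)
  obtain ⟨K5, hK5⟩ := exists_nat_ge (10 * (L : ℝ) / ε)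
  refine ⟨K1 + K2 + K3 + K4 + K5 + 1, fun x hx => ?_⟩
  have k1 := hK1 x (by omega)
  have k2 := hK2 x (by omega)
  have k3 := hK3 x (by omega)
  have k4 := hK4 x (by omega)
  have hx1 : (1 : ℝ) ≤ x := by
    have : 1 ≤ x := by omega
    exact_mod_cast this
  have hx5 : (K5 : ℝ) ≤ x := by
    have : K5 ≤ x := by omega
    exact_mod_cast this
  set M : ℕ := L * x with hM
  let H : ℤ → ℤ → ℂ := fun s t => if (∀ m, a m * s + b m * t ≤ e m * x) then
    ∏ i, f i ((α i + c * β i) * s + β i * t).natAbs else 0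
  have hH : ∀ s t, ‖H s t‖ ≤ 1 := by
    intro s t
    show ‖(if (∀ m, a m * s + b m * t ≤ e m * x) then
      ∏ i, f i ((α i + c * β i) * s + β i * t).natAbs else 0 : ℂ)‖ ≤ 1
    split_ifs
    · exact norm_prod_le f hf _
    · rw [norm_zero]
      exact zero_le_one
  -- the transformation
  have htr : ∑ z ∈ (bx Λ x).filter (fun z => ∀ j, A j * z.1 + B j * z.2 ≤ C j * x),
      ∏ i, f i (α i * z.1 + β i * z.2).natAbs =
      ∑ t ∈ Icc (-(M : ℤ)) (M : ℤ), ∑ s ∈ Icc (-(M : ℤ)) (M : ℤ), H s t := by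
    rw [← Finset.sum_product (Icc (-(M : ℤ)) (M : ℤ)) (Icc (-(M : ℤ)) (M : ℤ))
      (fun p => H p.2 p.1)]
    have e1 : ∑ p ∈ Icc (-(M : ℤ)) (M : ℤ) ×ˢ Icc (-(M : ℤ)) (M : ℤ), H p.2 p.1 =
        ∑ p ∈ (Icc (-(M : ℤ)) (M : ℤ) ×ˢ Icc (-(M : ℤ)) (M : ℤ)).filter
          (fun p => ∀ m, a m * p.2 + b m * p.1 ≤ e m * x),
          ∏ i, f i ((α i + c * β i) * p.2 + β i * p.1).natAbs := by
      rw [Finset.sum_filter]
    rw [e1]
    refine Finset.sum_nbij' (fun z => (z.2 - c * z.1, z.1)) (fun p => (p.2, p.1 + c * p.2))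
      ?_ ?_ ?_ ?_ ?_
    · intro z hz
      rw [mem_filter] at hz ⊢
      have h1 : (z.1, (z.2 - c * z.1) + c * z.1) ∈ bx Λ x ∧
          ∀ j, A j * z.1 + B j * ((z.2 - c * z.1) + c * z.1) ≤ C j * x := by
        simp only [sub_add_cancel]
        exact hz
      refine ⟨?_, (hcond _ _ _).2 h1⟩
      have h2 := hz.1
      unfold bx at h2
      simp only [mem_product, mem_Icc] at h2 ⊢
      obtain ⟨⟨h3, h4⟩, ⟨h5, h6⟩⟩ := h2
      have h7 : |z.1| ≤ ((Λ * x : ℕ) : ℤ) := abs_le.2 ⟨h3, h4⟩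
      have h8 : |z.2| ≤ ((Λ * x : ℕ) : ℤ) := abs_le.2 ⟨h5, h6⟩
      have h9 : ((Λ * x : ℕ) : ℤ) * (1 + |c|) ≤ (M : ℤ) := by
        have g1 : (Λ * x) * (1 + c.natAbs) ≤ M := by
          rw [hM, hL]
          nlinarith [Nat.zero_le (∑ j, (B j).natAbs), Nat.zero_le x,
            Nat.zero_le ((∑ j, (B j).natAbs) * x)]
        rw [Int.abs_eq_natAbs]
        exact_mod_cast g1
      have h10 : |z.2 - c * z.1| ≤ (M : ℤ) := by
        calc |z.2 - c * z.1| ≤ |z.2| + |c * z.1| := abs_sub _ _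
          _ = |z.2| + |c| * |z.1| := by rw [abs_mul]
          _ ≤ ((Λ * x : ℕ) : ℤ) + |c| * ((Λ * x : ℕ) : ℤ) :=
              add_le_add h8 (mul_le_mul_of_nonneg_left h7 (abs_nonneg c))
          _ = ((Λ * x : ℕ) : ℤ) * (1 + |c|) := by ring
          _ ≤ M := h9
      have h11 : |z.1| ≤ (M : ℤ) := by
        refine h7.trans (le_trans ?_ h9)
        have g2 : (0 : ℤ) ≤ ((Λ * x : ℕ) : ℤ) := Int.natCast_nonneg _
        nlinarith [abs_nonneg c]
      exact ⟨abs_le.1 h10, abs_le.1 h11⟩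
    · intro p hp
      rw [mem_filter] at hp ⊢
      exact (hcond _ _ _).1 hp.2
    · intro z _
      simp
    · intro p _
      simp
    · intro z _
      refine Finset.prod_congr rfl fun i _ => ?_
      congr 2
      show α i * z.1 + β i * z.2 = (α i + c * β i) * z.1 + β i * (z.2 - c * z.1)
      ring
  -- the decomposition
  have hN : ∀ g : ℕ → ℂ, (∀ n, ‖g n‖ ≤ 1) → ‖∑ n ∈ Icc 1 M, g n‖ ≤ M := by
    intro g hg
    calc ‖∑ n ∈ Icc 1 M, g n‖ ≤ ∑ n ∈ Icc 1 M, ‖g n‖ := norm_sum_le _ _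
      _ ≤ ∑ n ∈ Icc 1 M, (1 : ℝ) := Finset.sum_le_sum fun n _ => hg n
      _ = M := by simp
  have hinner : ∀ t : ℤ, ‖∑ s ∈ Icc (-(M : ℤ)) (M : ℤ), H s t‖ ≤
      1 + ‖∑ n ∈ Icc 1 M, H (n : ℤ) t‖ + ‖∑ n ∈ Icc 1 M, H (-(n : ℤ)) t‖ := by
    intro t
    rw [sum_sym M (fun s => H s t)]
    refine (norm_add_le _ _).trans ?_
    refine add_le_add ((norm_add_le _ _).trans ?_) le_rfl
    exact add_le_add (hH 0 t) le_rfl
  have hsum : ∀ φ : ℕ → ℤ, ‖∑ d ∈ Icc 1 M, ∑ s ∈ Icc (-(M : ℤ)) (M : ℤ), H s (φ d)‖ ≤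
      M + ∑ d ∈ Icc 1 M, ‖∑ n ∈ Icc 1 M, H (n : ℤ) (φ d)‖ +
        ∑ d ∈ Icc 1 M, ‖∑ n ∈ Icc 1 M, H (-(n : ℤ)) (φ d)‖ := by
    intro φ
    calc ‖∑ d ∈ Icc 1 M, ∑ s ∈ Icc (-(M : ℤ)) (M : ℤ), H s (φ d)‖
        ≤ ∑ d ∈ Icc 1 M, ‖∑ s ∈ Icc (-(M : ℤ)) (M : ℤ), H s (φ d)‖ := norm_sum_le _ _
      _ ≤ ∑ d ∈ Icc 1 M, (1 + ‖∑ n ∈ Icc 1 M, H (n : ℤ) (φ d)‖ +
          ‖∑ n ∈ Icc 1 M, H (-(n : ℤ)) (φ d)‖) := Finset.sum_le_sum fun d _ => hinner (φ d)
      _ = _ := by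
          rw [Finset.sum_add_distrib, Finset.sum_add_distrib]
          simp
  have q1 : ∑ d ∈ Icc 1 M, ‖∑ n ∈ Icc 1 M, H (n : ℤ) (d : ℤ)‖ ≤ ε / 8 * (x : ℝ) ^ 2 := by
    refine le_trans (le_of_eq ?_) k1
    refine Finset.sum_congr rfl fun d _ => ?_
    congr 1
    refine Finset.sum_congr rfl fun n _ => ?_
    simp only [one_mul]
    rfl
  have q2 : ∑ d ∈ Icc 1 M, ‖∑ n ∈ Icc 1 M, H (-(n : ℤ)) (d : ℤ)‖ ≤ ε / 8 * (x : ℝ) ^ 2 := by
    refine le_trans (le_of_eq ?_) k2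
    refine Finset.sum_congr rfl fun d _ => ?_
    congr 1
    refine Finset.sum_congr rfl fun n _ => ?_
    simp only [one_mul, neg_mul]
    show (if (∀ m, a m * (-(n : ℤ)) + b m * (d : ℤ) ≤ e m * x) then
      ∏ i, f i ((α i + c * β i) * (-(n : ℤ)) + β i * (d : ℤ)).natAbs else 0 : ℂ) = _
    simp only [mul_neg]
  have q3 : ∑ d ∈ Icc 1 M, ‖∑ n ∈ Icc 1 M, H (n : ℤ) (-(d : ℤ))‖ ≤ ε / 8 * (x : ℝ) ^ 2 := by
    refine le_trans (le_of_eq ?_) k3
    refine Finset.sum_congr rfl fun d _ => ?_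
    congr 1
    refine Finset.sum_congr rfl fun n _ => ?_
    simp only [one_mul, neg_mul]
    show (if (∀ m, a m * (n : ℤ) + b m * (-(d : ℤ)) ≤ e m * x) then
      ∏ i, f i ((α i + c * β i) * (n : ℤ) + β i * (-(d : ℤ))).natAbs else 0 : ℂ) = _
    simp only [mul_neg]
  have q4 : ∑ d ∈ Icc 1 M, ‖∑ n ∈ Icc 1 M, H (-(n : ℤ)) (-(d : ℤ))‖ ≤ ε / 8 * (x : ℝ) ^ 2 := by
    refine le_trans (le_of_eq ?_) k4
    refine Finset.sum_congr rfl fun d _ => ?_
    congr 1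
    refine Finset.sum_congr rfl fun n _ => ?_
    simp only [neg_mul, one_mul]
    show (if (∀ m, a m * (-(n : ℤ)) + b m * (-(d : ℤ)) ≤ e m * x) then
      ∏ i, f i ((α i + c * β i) * (-(n : ℤ)) + β i * (-(d : ℤ))).natAbs else 0 : ℂ) = _
    simp only [mul_neg]
  rw [htr, sum_sym M (fun t => ∑ s ∈ Icc (-(M : ℤ)) (M : ℤ), H s t)]
  have f0 := hinner 0
  have f0a := hN (fun n => H (n : ℤ) 0) (fun n => hH _ _)
  have f0b := hN (fun n => H (-(n : ℤ)) 0) (fun n => hH _ _)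
  have f1 := hsum (fun d => (d : ℤ))
  have f2 := hsum (fun d => -(d : ℤ))
  have hMx : (M : ℝ) = L * x := by
    rw [hM]
    push_cast
    ring
  have hL1' : (1 : ℝ) ≤ L := by exact_mod_cast hL1
  have hbig : 4 * (M : ℝ) + 1 ≤ ε / 2 * (x : ℝ) ^ 2 := by
    have g1 : 10 * (L : ℝ) / ε ≤ x := hK5.trans hx5
    rw [div_le_iff₀ hε] at g1
    rw [hMx]
    have g2 : (1 : ℝ) ≤ L * x := by nlinarith
    have g3 : 10 * (L : ℝ) * x ≤ x * ε * x := mul_le_mul_of_nonneg_right g1 (by linarith)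
    nlinarith
  calc _ ≤ ‖∑ s ∈ Icc (-(M : ℤ)) (M : ℤ), H s 0‖ +
        ‖∑ d ∈ Icc 1 M, ∑ s ∈ Icc (-(M : ℤ)) (M : ℤ), H s (d : ℤ)‖ +
        ‖∑ d ∈ Icc 1 M, ∑ s ∈ Icc (-(M : ℤ)) (M : ℤ), H s (-(d : ℤ))‖ :=
        (norm_add_le _ _).trans (add_le_add (norm_add_le _ _) le_rfl)
    _ ≤ ε * (x : ℝ) ^ 2 := by linarith

end Pool.Agent.N644.PY
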